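import Mathlib

/-!
# Towers of exponentials and degrees
-/

set_option autoImplicit false

namespace Pool.Agent.Helper227_Tow

open IntermediateField

/-- the tower `t_0 = x`, `t_{k+1} = e ^ (t_k)` -/
noncomputable def tower (x : ℝ) : ℕ → ℝ
  | 0 => x
  | k + 1 => Real.exp (tower x k)

/-- the real number `t` lies in the field `F` and `[F : ℚ(t)] ≤ D` -/
def DegLE (F : IntermediateField ℚ ℂ) (D : ℕ) (t : ℝ) : Prop :=
  ∃ z : F, (z : ℂ) = t ∧ FiniteDimensional ℚ⟮z⟯ F ∧ Module.finrank ℚ⟮z⟯ F ≤ D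

end Pool.Agent.Helper227_Tow
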