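import Mathlib
import Pool.Agent.H297R2.InBakerThm

/-!
# Three consecutive levels of a tower of exponentials with algebraic ratios

`x_a`, `y_a = e ^ (x_a)`, `w_a = e ^ (y_a)` for four real numbers `x_0 < x_1 < x_2 < x_3`. If all the
ratios `x_a / x_0`, `y_a / y_0`, `w_a / w_0` are algebraic, then `w_0` is algebraic.
-/

set_option autoImplicit false

namespace Pool.Agent.Helper227_Tow

open Real

/-- an exponential sum with four terms has at most three real zeros -/
theorem rolle4 {A B C d L T : ℝ} (hA : A ≠ 0) (hC : C ≠ 0) (hL : L ≠ 0)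
    (q : Fin 4 → ℝ) (hq : StrictMono q)
    (h : ∀ i, A * exp (2 * L * q i) + B * exp (L * q i) + C = d * exp (T * q i)) : False := by
  let f : ℝ → ℝ := fun x => A * exp (2 * L * x) + B * exp (L * x) + C - d * exp (T * x)
  let f' : ℝ → ℝ := fun x => A * (exp (2 * L * x) * (2 * L)) + B * (exp (L * x) * L) -
    d * (exp (T * x) * T)
  have hexp : ∀ c x : ℝ, HasDerivAt (fun x => exp (c * x)) (exp (c * x) * c) x := by
    intro c x
    have h1 : HasDerivAt (fun x : ℝ => c * x) c x := by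
      simpa using (hasDerivAt_id x).const_mul c
    exact h1.exp
  have hf : ∀ x, HasDerivAt f (f' x) x := by
    intro x
    exact ((((hexp (2 * L) x).const_mul A).add ((hexp L x).const_mul B)).add_const C).sub
      ((hexp T x).const_mul d)
  have hf0 : ∀ i, f (q i) = 0 := fun i => sub_eq_zero.2 (h i)
  have roll1 : ∀ i j : Fin 4, i < j → ∃ p, q i < p ∧ p < q j ∧ f' p = 0 := by
    intro i j hij
    obtain ⟨p, hp, hp0⟩ := exists_hasDerivAt_eq_zero (hq hij)
      (fun x _ => (hf x).continuousAt.continuousWithinAt) ((hf0 i).trans (hf0 j).symm)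
      (fun x _ => hf x)
    exact ⟨p, hp.1, hp.2, hp0⟩
  let g : ℝ → ℝ := fun x => A * (2 * L) * exp (L * x) + B * L - d * T * exp ((T - L) * x)
  let g' : ℝ → ℝ := fun x => A * (2 * L) * (exp (L * x) * L) -
    d * T * (exp ((T - L) * x) * (T - L))
  have hg : ∀ x, HasDerivAt g (g' x) x := by
    intro x
    exact (((hexp L x).const_mul (A * (2 * L))).add_const (B * L)).sub
      ((hexp (T - L) x).const_mul (d * T))
  have hfg : ∀ x, f' x = exp (L * x) * g x := by
    intro x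
    show A * (exp (2 * L * x) * (2 * L)) + B * (exp (L * x) * L) - d * (exp (T * x) * T) =
      exp (L * x) * (A * (2 * L) * exp (L * x) + B * L - d * T * exp ((T - L) * x))
    have e1 : exp (2 * L * x) = exp (L * x) * exp (L * x) := by rw [← exp_add]; congr 1; ring
    have e2 : exp (T * x) = exp (L * x) * exp ((T - L) * x) := by rw [← exp_add]; congr 1; ring
    rw [e1, e2]
    ring
  obtain ⟨p0, -, hp0b, hp0⟩ := roll1 0 1 (by decide)
  obtain ⟨p1, hp1a, hp1b, hp1⟩ := roll1 1 2 (by decide)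
  obtain ⟨p2, hp2a, -, hp2⟩ := roll1 2 3 (by decide)
  have hg0 : ∀ p, f' p = 0 → g p = 0 := fun p hp =>
    (mul_eq_zero.1 ((hfg p).symm.trans hp)).resolve_left (exp_pos _).ne'
  obtain ⟨r0, hr0, hr0'⟩ := exists_hasDerivAt_eq_zero (hp0b.trans hp1a)
    (fun x _ => (hg x).continuousAt.continuousWithinAt) ((hg0 p0 hp0).trans (hg0 p1 hp1).symm)
    (fun x _ => hg x)
  obtain ⟨r1, hr1, hr1'⟩ := exists_hasDerivAt_eq_zero (hp1b.trans hp2a)
    (fun x _ => (hg x).continuousAt.continuousWithinAt) ((hg0 p1 hp1).trans (hg0 p2 hp2).symm)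
    (fun x _ => hg x)
  have hr : r0 < r1 := hr0.2.trans hr1.1
  have key : ∀ r, g' r = 0 → A * (2 * L) * L = d * T * (T - L) * exp ((T - 2 * L) * r) := by
    intro r hr
    have e2 : exp ((T - L) * r) = exp (L * r) * exp ((T - 2 * L) * r) := by
      rw [← exp_add]; congr 1; ring
    have h1 : exp (L * r) * (A * (2 * L) * L - d * T * (T - L) * exp ((T - 2 * L) * r)) = 0 := by
      have h2 : g' r = exp (L * r) * (A * (2 * L) * L -
          d * T * (T - L) * exp ((T - 2 * L) * r)) := by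
        show A * (2 * L) * (exp (L * r) * L) - d * T * (exp ((T - L) * r) * (T - L)) = _
        rw [e2]
        ring
      rw [← h2, hr]
    exact sub_eq_zero.1 ((mul_eq_zero.1 h1).resolve_left (exp_pos _).ne')
  have k0 := key r0 hr0'
  have k1 := key r1 hr1'
  have hne : A * (2 * L) * L ≠ 0 := mul_ne_zero (mul_ne_zero hA (mul_ne_zero two_ne_zero hL)) hL
  have hne2 : d * T * (T - L) ≠ 0 := by
    intro h0
    rw [h0, zero_mul] at k0
    exact hne k0
  have he : exp ((T - 2 * L) * r0) = exp ((T - 2 * L) * r1) :=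
    mul_left_cancel₀ hne2 (k0.symm.trans k1)
  have he2 := exp_injective he
  have hT : T = 2 * L := by
    have h1 : (T - 2 * L) * (r0 - r1) = 0 := by linear_combination he2
    rcases mul_eq_zero.1 h1 with h2 | h2
    · linarith
    · linarith
  have hAd : A = d := by
    rw [hT, sub_self, zero_mul, exp_zero, mul_one] at k0
    have h1 : (A - d) * (2 * L * L) = 0 := by linear_combination k0
    rcases mul_eq_zero.1 h1 with h2 | h2
    · linarith
    · exact absurd h2 (mul_ne_zero (mul_ne_zero two_ne_zero hL) hL)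
  have hB : ∀ i, B * exp (L * q i) + C = 0 := by
    intro i
    have h1 := h i
    rw [hT, hAd] at h1
    linarith
  have h0 := hB 0
  have h1 := hB 1
  have h2 : B * (exp (L * q 0) - exp (L * q 1)) = 0 := by linear_combination h0 - h1
  rcases mul_eq_zero.1 h2 with h3 | h3
  · rw [h3, zero_mul, zero_add] at h0
    exact hC h0
  · have h4 := exp_injective (sub_eq_zero.1 h3)
    have h5 : q 0 = q 1 := mul_left_cancel₀ hL h4
    exact absurd h5 (hq (by decide : (0 : Fin 4) < 1)).ne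

/-- the algebraic numbers -/
noncomputable abbrev E : IntermediateField ℚ ℂ := algebraicClosure ℚ ℂ

theorem mem_E {z : ℂ} : z ∈ E ↔ IsAlgebraic ℚ z := mem_algebraicClosure_iff

theorem algC {x : ℝ} (h : IsAlgebraic ℚ x) : IsAlgebraic ℚ (x : ℂ) := h.algebraMap (A := ℂ)

theorem algR {x : ℝ} (h : IsAlgebraic ℚ (x : ℂ)) : IsAlgebraic ℚ x :=
  (isAlgebraic_algebraMap_iff (algebraMap ℝ ℂ).injective).1 h

theorem abs_conj (σ : E ≃ₐ[ℚ] E) {ρ R : ℝ} (hρ : 0 < ρ) (hρa : IsAlgebraic ℚ ρ)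
    (hRa : IsAlgebraic ℚ R) (q : ℚ) (h : R = ρ ^ (q : ℝ)) :
    ‖((σ ⟨(R : ℂ), mem_E.2 (algC hRa)⟩ : E) : ℂ)‖ =
      ‖((σ ⟨(ρ : ℂ), mem_E.2 (algC hρa)⟩ : E) : ℂ)‖ ^ (q : ℝ) := by
  set r : E := ⟨(R : ℂ), mem_E.2 (algC hRa)⟩ with hr
  set s : E := ⟨(ρ : ℂ), mem_E.2 (algC hρa)⟩ with hs
  have hs0 : s ≠ 0 := by
    intro h0
    have h1 : (ρ : ℂ) = 0 := congrArg Subtype.val h0
    exact hρ.ne' (by exact_mod_cast h1)
  have hden : (0 : ℝ) < (q.den : ℝ) := by exact_mod_cast q.den_pos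
  have h1 : R ^ q.den = ρ ^ q.num := by
    rw [h, ← Real.rpow_natCast, ← Real.rpow_mul hρ.le, ← Real.rpow_intCast]
    congr 1
    have h2 : (q : ℝ) = (q.num : ℝ) / (q.den : ℝ) := by
      exact_mod_cast (Rat.num_div_den q).symm
    rw [h2]
    field_simp
  have h2 : r ^ q.den = s ^ q.num := by
    apply Subtype.ext
    have h3 : ((r ^ q.den : E) : ℂ) = (R : ℂ) ^ q.den := rfl
    have h4 : ((s ^ q.num : E) : ℂ) = (ρ : ℂ) ^ q.num := by
      rw [hs]
      rfl
    rw [h3, h4]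
    exact_mod_cast h1
  have h3 := congrArg (fun z : E => ‖((σ z : E) : ℂ)‖) h2
  simp only [map_pow, map_zpow₀] at h3
  have h4 : ‖((σ r : E) : ℂ)‖ ^ q.den = ‖((σ s : E) : ℂ)‖ ^ q.num := by
    have e1 : (((σ r) ^ q.den : E) : ℂ) = ((σ r : E) : ℂ) ^ q.den := rfl
    have e2 : (((σ s) ^ q.num : E) : ℂ) = ((σ s : E) : ℂ) ^ q.num := rfl
    rw [e1, e2, norm_pow, norm_zpow] at h3
    exact h3
  have h5 : (‖((σ s : E) : ℂ)‖ ^ (q : ℝ)) ^ q.den = ‖((σ s : E) : ℂ)‖ ^ q.num := by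
    have hn : 0 < ‖((σ s : E) : ℂ)‖ := by
      rw [norm_pos_iff]
      intro h0
      have : σ s = 0 := Subtype.ext h0
      exact hs0 ((map_eq_zero σ).1 this)
    rw [← Real.rpow_natCast, ← Real.rpow_mul hn.le, ← Real.rpow_intCast]
    congr 1
    have h2 : (q : ℝ) = (q.num : ℝ) / (q.den : ℝ) := by
      exact_mod_cast (Rat.num_div_den q).symm
    rw [h2]
    field_simp
  rw [← h5] at h4
  exact (pow_left_inj₀ (norm_nonneg _) (Real.rpow_nonneg (norm_nonneg _) _)
    q.den_pos.ne').1 h4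

/-- An irrational positive algebraic number `ρ` has at most three rational powers on the line
`1 + ℚ (ρ - 1)`. -/
theorem powers_on_line {ρ : ℝ} (hρ : 0 < ρ) (hρa : IsAlgebraic ℚ ρ) (hirr : ∀ r : ℚ, ρ ≠ r)
    (q : Fin 4 → ℚ) (hq : StrictMono q)
    (h : ∀ i, ∃ r : ℚ, ρ ^ (q i : ℝ) - 1 = r * (ρ - 1)) : False := by
  obtain ⟨σ, hσ⟩ : ∃ σ : E ≃ₐ[ℚ] E, σ ⟨(ρ : ℂ), mem_E.2 (algC hρa)⟩ ≠
      ⟨(ρ : ℂ), mem_E.2 (algC hρa)⟩ := by
    by_contra hcon
    push Not at hcon
    have : IsAlgClosure ℚ E := algebraicClosure.isAlgClosure (F := ℚ) (E := ℂ)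
    have : IsGalois ℚ E := IsAlgClosure.isGalois ℚ E
    have h1 := (InfiniteGalois.mem_range_algebraMap_iff_fixed (k := ℚ) (K := E)
      ⟨(ρ : ℂ), mem_E.2 (algC hρa)⟩).2 hcon
    obtain ⟨r, hr⟩ := h1
    apply hirr r
    have h2 := congrArg Subtype.val hr
    have h3 : (((algebraMap ℚ E r : E)) : ℂ) = (r : ℂ) := by simp
    have h4 : (r : ℂ) = (ρ : ℂ) := h3.symm.trans h2
    exact_mod_cast h4.symm
  set s₀ : E := ⟨(ρ : ℂ), mem_E.2 (algC hρa)⟩ with hs₀
  set s : ℂ := ((σ s₀ : E) : ℂ) - 1 with hs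
  set r : ℝ := ρ - 1 with hr
  have hr0 : r ≠ 0 := by
    intro h0
    apply hirr 1
    push_cast
    linarith
  have hL : Real.log ρ ≠ 0 := by
    intro h0
    rcases Real.log_eq_zero.1 h0 with h1 | h1 | h1
    · exact hρ.ne' h1
    · exact hr0 (by rw [hr, h1, sub_self])
    · linarith
  have hs0 : s ≠ 0 := by
    intro h0
    have h1 : σ s₀ = 1 := by
      apply Subtype.ext
      have : ((σ s₀ : E) : ℂ) = 1 := sub_eq_zero.1 h0
      rw [this]
      rfl
    have h2 : s₀ = 1 := σ.injective (by rw [h1, map_one])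
    have h3 := congrArg Subtype.val h2
    have h4 : (ρ : ℂ) = 1 := h3
    apply hirr 1
    exact_mod_cast h4
  have hsr : s ≠ (r : ℂ) := by
    intro h0
    apply hσ
    apply Subtype.ext
    have h1 : ((σ s₀ : E) : ℂ) = (ρ : ℂ) := by
      have h2 : ((σ s₀ : E) : ℂ) - 1 = ((ρ - 1 : ℝ) : ℂ) := h0
      push_cast at h2
      linear_combination h2
    exact h1
  have hA : s.re ^ 2 + s.im ^ 2 ≠ 0 := by
    intro h0
    apply hs0
    have h1 : s.re = 0 := by nlinarith [sq_nonneg s.re, sq_nonneg s.im]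
    have h2 : s.im = 0 := by nlinarith [sq_nonneg s.re, sq_nonneg s.im]
    exact Complex.ext h1 h2
  have hC : (r - s.re) ^ 2 + s.im ^ 2 ≠ 0 := by
    intro h0
    apply hsr
    have h1 : r - s.re = 0 := by nlinarith [sq_nonneg (r - s.re), sq_nonneg s.im]
    have h2 : s.im = 0 := by nlinarith [sq_nonneg (r - s.re), sq_nonneg s.im]
    apply Complex.ext
    · rw [Complex.ofReal_re]; linarith
    · rw [Complex.ofReal_im]; exact h2
  have hn : 0 < ‖((σ s₀ : E) : ℂ)‖ := by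
    rw [norm_pos_iff]
    intro h0
    have h1 : σ s₀ = 0 := Subtype.ext h0
    have h2 := (map_eq_zero σ).1 h1
    have h3 : (ρ : ℂ) = 0 := congrArg Subtype.val h2
    exact hρ.ne' (by exact_mod_cast h3)
  refine rolle4 (A := s.re ^ 2 + s.im ^ 2) (B := 2 * (r * s.re - (s.re ^ 2 + s.im ^ 2)))
    (C := (r - s.re) ^ 2 + s.im ^ 2) (d := r ^ 2) (L := Real.log ρ)
    (T := 2 * Real.log ‖((σ s₀ : E) : ℂ)‖) hA hC hL (fun i => (q i : ℝ))
    (fun i j hij => by
      show (q i : ℝ) < q j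
      exact_mod_cast hq hij) ?_
  intro i
  obtain ⟨c, hc⟩ := h i
  set R : ℝ := ρ ^ (q i : ℝ) with hR
  have hRpos : 0 < R := Real.rpow_pos_of_pos hρ _
  have hRe : R = 1 + c * r := by rw [← hc]; ring
  have hRa : IsAlgebraic ℚ R := by
    rw [hRe]
    have h1 : IsAlgebraic ℚ ((c : ℚ) : ℝ) := isAlgebraic_algebraMap (R := ℚ) (A := ℝ) c
    exact isAlgebraic_one.add (h1.mul (hρa.sub isAlgebraic_one))
  have hσR : ((σ ⟨(R : ℂ), mem_E.2 (algC hRa)⟩ : E) : ℂ) = 1 + (c : ℂ) * s := by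
    have h1 : (⟨(R : ℂ), mem_E.2 (algC hRa)⟩ : E) = 1 + algebraMap ℚ E c * (s₀ - 1) := by
      apply Subtype.ext
      show (R : ℂ) = ((1 + algebraMap ℚ E c * (s₀ - 1) : E) : ℂ)
      have h3 : (((algebraMap ℚ E c : E)) : ℂ) = (c : ℂ) := by simp
      have h4 : ((1 + algebraMap ℚ E c * (s₀ - 1) : E) : ℂ) =
          1 + (((algebraMap ℚ E c : E)) : ℂ) * ((ρ : ℂ) - 1) := rfl
      rw [h4, h3, hRe, hr]
      push_cast
      ring
    rw [h1, map_add, map_mul, map_sub, map_one, AlgEquiv.commutes]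
    have h3 : (((algebraMap ℚ E c : E)) : ℂ) = (c : ℂ) := by simp
    have h4 : ((1 + algebraMap ℚ E c * (σ s₀ - 1) : E) : ℂ) =
          1 + (((algebraMap ℚ E c : E)) : ℂ) * (((σ s₀ : E) : ℂ) - 1) := rfl
    rw [h4, h3]
  have habs := abs_conj σ hρ hρa hRa (q i) rfl
  rw [hσR] at habs
  have hsq : ‖1 + (c : ℂ) * s‖ ^ 2 = (1 + c * s.re) ^ 2 + (c * s.im) ^ 2 := by
    rw [Complex.sq_norm, Complex.normSq_apply]
    simp only [Complex.add_re, Complex.one_re, Complex.mul_re, Complex.ratCast_re,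
      Complex.ratCast_im, zero_mul, sub_zero, Complex.add_im, Complex.one_im, Complex.mul_im,
      zero_add, add_zero]
    ring
  have hpow : (‖((σ s₀ : E) : ℂ)‖ ^ ((q i : ℚ) : ℝ)) ^ 2 =
      Real.exp (2 * Real.log ‖((σ s₀ : E) : ℂ)‖ * (q i : ℝ)) := by
    rw [← Real.rpow_natCast, ← Real.rpow_mul hn.le, Real.rpow_def_of_pos hn]
    congr 1
    push_cast
    ring
  have h6 : (1 + c * s.re) ^ 2 + (c * s.im) ^ 2 =
      Real.exp (2 * Real.log ‖((σ s₀ : E) : ℂ)‖ * (q i : ℝ)) := by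
    rw [← hsq, habs, hpow]
  have e1 : Real.exp (Real.log ρ * (q i : ℝ)) = R := by
    rw [hR, Real.rpow_def_of_pos hρ]
  have e2 : Real.exp (2 * Real.log ρ * (q i : ℝ)) = R ^ 2 := by
    rw [← e1, ← Real.exp_nat_mul]
    congr 1
    push_cast
    ring
  rw [← h6, e1, e2, hRe]
  ring

/-- Gelfond–Schneider for real logarithms -/
theorem gs {l m c : ℝ} (hl : IsAlgebraic ℚ (Real.exp l)) (hm : IsAlgebraic ℚ (Real.exp m))
    (hc : IsAlgebraic ℚ c) (h : l = c * m) (hm0 : m ≠ 0) : ∃ r : ℚ, c = r := by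
  by_contra hcon
  push Not at hcon
  have hω : LinearIndependent ℚ ![(l : ℂ), (m : ℂ)] := by
    rw [LinearIndependent.pair_iff]
    intro s t hst
    have h1 : (s : ℝ) * l + (t : ℝ) * m = 0 := by
      have h2 : (s : ℂ) * (l : ℂ) + (t : ℂ) * (m : ℂ) = 0 := by
        simpa [Rat.smul_def] using hst
      exact_mod_cast h2
    rw [h] at h1
    have h3 : (s : ℝ) * c + t = 0 := by
      have : ((s : ℝ) * c + t) * m = 0 := by linear_combination h1
      exact (mul_eq_zero.mp this).resolve_right hm0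
    by_cases hs : s = 0
    · subst hs
      refine ⟨rfl, ?_⟩
      simpa using h3
    · exfalso
      apply hcon (-t / s)
      have hs' : (s : ℝ) ≠ 0 := by exact_mod_cast hs
      push_cast
      field_simp
      linear_combination h3
  obtain ⟨-, h3⟩ := Pool.Agent.H297R2.baker_inhom ![(l : ℂ), (m : ℂ)] (by
      intro i
      fin_cases i
      · show IsAlgebraic ℚ (Complex.exp (l : ℂ))
        rw [← Complex.ofReal_exp]; exact algC hl
      · show IsAlgebraic ℚ (Complex.exp (m : ℂ))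
        rw [← Complex.ofReal_exp]; exact algC hm) hω 0 isAlgebraic_zero ![1, -(c : ℂ)] (by
      intro i
      fin_cases i
      · exact isAlgebraic_one
      · exact (algC hc).neg) (by
      rw [Fin.sum_univ_two]
      simp only [Matrix.cons_val_zero, Matrix.cons_val_one]
      rw [h]
      push_cast
      ring)
  have h4 := h3 0
  simp only [Matrix.cons_val_zero] at h4
  exact one_ne_zero h4

/-- rational multiples of logarithms -/
theorem alg_exp_rat {l : ℝ} (h : IsAlgebraic ℚ (Real.exp l)) (q : ℚ) :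
    IsAlgebraic ℚ (Real.exp (q * l)) := by
  have h1 : (Real.exp (q * l)) ^ q.den = (Real.exp l) ^ q.num := by
    rw [← Real.exp_nat_mul, ← Real.rpow_intCast, ← Real.exp_mul]
    congr 1
    have h2 : (q : ℝ) = (q.num : ℝ) / (q.den : ℝ) := by
      exact_mod_cast (Rat.num_div_den q).symm
    have hden : (q.den : ℝ) ≠ 0 := by exact_mod_cast q.den_pos.ne'
    rw [h2]
    field_simp
  refine IsAlgebraic.of_pow q.den_pos ?_
  rw [h1]
  rcases Int.eq_nat_or_neg q.num with ⟨n, hn | hn⟩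
  · rw [hn, zpow_natCast]
    exact h.pow n
  · rw [hn, zpow_neg, zpow_natCast]
    exact (h.pow n).inv

/-- **Three levels with algebraic ratios.** -/
theorem fiber (x : Fin 4 → ℝ) (hx : StrictMono x) (hx0 : x 0 ≠ 0)
    (h1 : ∀ a, IsAlgebraic ℚ (x a / x 0)) (h2 : ∀ a, IsAlgebraic ℚ (exp (x a) / exp (x 0)))
    (h3 : ∀ a, IsAlgebraic ℚ (exp (exp (x a)) / exp (exp (x 0))))
    (htr : Transcendental ℚ (exp (exp (x 0)))) : False := by
  have halg : ∀ (z : Fin 4 → ℝ), StrictMono z → z 0 ≠ 0 → (∀ a, IsAlgebraic ℚ (z a / z 0)) →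
      (∀ a, IsAlgebraic ℚ (exp (z a) / exp (z 0))) →
      ∀ a, ∃ r : ℚ, z a - z 0 = r * (z 1 - z 0) := by
    intro z hz hz0 g1 g2 a
    have hm : z 1 - z 0 ≠ 0 := (sub_pos.2 (hz (by decide : (0 : Fin 4) < 1))).ne'
    have hc : ∀ a, z a - z 0 = (z a / z 0 - 1) * z 0 := by
      intro a
      field_simp
    have hc1 : z 1 / z 0 - 1 ≠ 0 := by
      intro h0
      apply hm
      rw [hc 1, h0, zero_mul]
    obtain ⟨r, hr⟩ := gs (l := z a - z 0) (m := z 1 - z 0)
      (c := (z a / z 0 - 1) * (z 1 / z 0 - 1)⁻¹) (by rw [exp_sub]; exact g2 a)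
      (by rw [exp_sub]; exact g2 1)
      (((g1 a).sub isAlgebraic_one).mul ((g1 1).sub isAlgebraic_one).inv) (by
        rw [hc 1, mul_assoc, ← mul_assoc (z 1 / z 0 - 1)⁻¹, inv_mul_cancel₀ hc1, one_mul, ← hc])
      hm
    refine ⟨r, ?_⟩
    rw [← hr, hc 1, mul_assoc, ← mul_assoc (z 1 / z 0 - 1)⁻¹, inv_mul_cancel₀ hc1, one_mul, ← hc]
  have hy : StrictMono (fun a => exp (x a)) := fun a b hab => exp_lt_exp.2 (hx hab)
  have hlam := halg x hx hx0 h1 h2
  have hmu := halg (fun a => exp (x a)) hy (exp_pos _).ne' h2 h3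
  choose q hq using hlam
  choose r hr using hmu
  set lam := x 1 - x 0 with hlamd
  have hlam0 : 0 < lam := sub_pos.2 (hx (by decide : (0 : Fin 4) < 1))
  set ρ := exp lam with hρ
  have hρa : IsAlgebraic ℚ ρ := by
    rw [hρ, hlamd, exp_sub]
    exact h2 1
  have hρ1 : ρ - 1 ≠ 0 := by
    have : 1 < ρ := by rw [hρ]; exact one_lt_exp_iff.2 hlam0
    linarith [this]
  have hyr : ∀ a, exp (x a) = exp (x 0) * ρ ^ (q a : ℝ) := by
    intro a
    rw [hρ, ← exp_mul, ← exp_add]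
    congr 1
    have := hq a
    linarith
  refine powers_on_line (ρ := ρ) (exp_pos _) hρa ?_ q ?_ ?_
  · intro c hc
    apply htr
    have h5 : exp (x 1) - exp (x 0) = (ρ - 1) * exp (x 0) := by
      have h6 := hyr 1
      have h7 : exp (x 1) = exp (x 0) * ρ := by
        rw [hρ, hlamd, ← exp_add]
        congr 1
        ring
      rw [h7]
      ring
    have h6 : exp (x 0) = (((c - 1)⁻¹ : ℚ) : ℝ) * (exp (x 1) - exp (x 0)) := by
      rw [h5, hc]
      push_cast
      rw [← mul_assoc, inv_mul_cancel₀ (by rw [← hc]; exact hρ1), one_mul]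
    rw [h6]
    apply alg_exp_rat
    rw [exp_sub]
    exact h3 1
  · intro a b hab
    have h5 : (q a : ℝ) * lam < q b * lam := by
      rw [← hq a, ← hq b]
      linarith [hx hab]
    have h6 : (q a : ℝ) < q b := lt_of_mul_lt_mul_right h5 hlam0.le
    exact_mod_cast h6
  · intro a
    refine ⟨r a, ?_⟩
    have h5 := hr a
    have h7 : exp (x 1) = exp (x 0) * ρ := by
      rw [hρ, hlamd, ← exp_add]
      congr 1
      ring
    rw [hyr a, h7] at h5
    have h8 : exp (x 0) * (ρ ^ (q a : ℝ) - 1 - r a * (ρ - 1)) = 0 := by linear_combination h5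
    have h9 := (mul_eq_zero.1 h8).resolve_left (exp_pos _).ne'
    linarith

end Pool.Agent.Helper227_Tow
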