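import Pool.Agent.W243.TD.Grow

/-!
# Degrees and orders at a place

If `x = u ^ m y` in a field `F`, `u` is transcendental over `k` and `F` has degree at most `D` over
`k(x)` and over `k(y)`, then `m ≤ 2 D`.
-/

set_option autoImplicit false

namespace Pool.Agent.Helper227_Tow

open Polynomial Module IntermediateField
open Pool.Agent.W243.TD (exists_place aeval_mem aeval_unit)
open scoped IntermediateField.algebraAdjoinAdjoin

variable {k F : Type*} [Field k] [Field F] [Algebra k F]

section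

variable (O : ValuationSubring F) (hk : ∀ a : k, algebraMap k F a ∈ O) {x : F} (hx0 : x ≠ 0)
  (hx : O.valuation x < 1)

include hk hx0 hx in
theorem val_aeval {p : k[X]} (hp : p ≠ 0) :
    ∃ m : ℕ, O.valuation (aeval x p) = O.valuation x ^ m := by
  obtain ⟨q, hq1, hq2⟩ := p.exists_eq_pow_rootMultiplicity_mul_and_not_dvd hp 0
  rw [C_0, sub_zero] at hq1 hq2
  have hq0 : q.coeff 0 ≠ 0 := fun h => hq2 (X_dvd_iff.2 h)
  refine ⟨p.rootMultiplicity 0, ?_⟩
  have hxO : x ∈ O := (O.valuation_le_one_iff x).1 hx.le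
  have hxi : x⁻¹ ∉ O := by
    intro h
    have h1 := (O.valuation_le_one_iff _).2 h
    have h2 : O.valuation x * O.valuation x⁻¹ < 1 := mul_lt_one_of_lt_of_le hx h1
    rw [← map_mul, mul_inv_cancel₀ hx0, map_one] at h2
    exact lt_irrefl _ h2
  have h1 : O.valuation (aeval x q) = 1 := by
    have h2 := (O.valuation_le_one_iff _).2 (aeval_mem O hk hxO q)
    have h3 := (O.valuation_le_one_iff _).2 (aeval_unit O hk hxO hxi hq0)
    rw [map_inv₀] at h3
    have h4 : O.valuation (aeval x q) ≠ 0 := by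
      intro h0
      rw [Valuation.zero_iff] at h0
      have h5 := aeval_unit O hk hxO hxi (p := q + X * (q - C (q.coeff 0)))
        (by simpa using hq0)
      have : (q : k[X]) = q := rfl
      -- `q(x) = 0` is impossible: `q(0) = - x * (...)`
      have h6 : aeval x q = x * aeval x q.divX + algebraMap k F (q.coeff 0) := by
        have := congrArg (aeval x) (X_mul_divX_add q)
        simp only [map_add, map_mul, aeval_X, aeval_C] at this
        exact this.symm
      rw [h0] at h6
      have h7 : O.valuation (algebraMap k F (q.coeff 0)) < 1 := by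
        have e : algebraMap k F (q.coeff 0) = -(x * aeval x q.divX) := by
          linear_combination -h6
        rw [e, Valuation.map_neg, map_mul]
        exact mul_lt_one_of_lt_of_le hx ((O.valuation_le_one_iff _).2 (aeval_mem O hk hxO _))
      have h8 : O.valuation (algebraMap k F (q.coeff 0)⁻¹) ≤ 1 :=
        (O.valuation_le_one_iff _).2 (hk _)
      have h9 := mul_lt_one_of_lt_of_le h7 h8
      rw [← map_mul, ← map_mul, mul_inv_cancel₀ hq0, map_one, map_one] at h9
      exact lt_irrefl _ h9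
    have h5 : 1 ≤ O.valuation (aeval x q) := (inv_le_one₀ (zero_lt_iff.2 h4)).1 h3
    exact le_antisymm h2 h5
  have h2 : aeval x p = x ^ p.rootMultiplicity 0 * aeval x q := by
    conv_lhs => rw [hq1]
    rw [map_mul, map_pow, aeval_X]
  rw [h2, map_mul, map_pow, h1, mul_one]

include hk hx0 hx in
/-- the order of `x` is at most the degree times the order of `u` -/
theorem place_bound {u : F} (hu0 : u ≠ 0) (hu : O.valuation u < 1) {D : ℕ}
    (hfin : FiniteDimensional k⟮x⟯ F) (hD : finrank k⟮x⟯ F ≤ D) :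
    O.valuation u ^ D ≤ O.valuation x := by
  classical
  by_contra hcon
  push Not at hcon
  have hvx0 : O.valuation x ≠ 0 := (Valuation.ne_zero_iff _).2 hx0
  have hvu0 : O.valuation u ≠ 0 := (Valuation.ne_zero_iff _).2 hu0
  have hdep : ¬ LinearIndependent k⟮x⟯ (fun i : Fin (D + 1) => u ^ (i : ℕ)) := by
    intro h
    have h1 := h.fintype_card_le_finrank
    rw [Fintype.card_fin] at h1
    omega
  have hdep2 : ¬ LinearIndependent (Algebra.adjoin k {x}) (fun i : Fin (D + 1) => u ^ (i : ℕ)) := by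
    rw [LinearIndependent.iff_fractionRing (Algebra.adjoin k {x}) k⟮x⟯]
    exact hdep
  rw [Fintype.linearIndependent_iff] at hdep2
  push Not at hdep2
  obtain ⟨r, hr, i1, hi1⟩ := hdep2
  have hrep : ∀ i, ∃ p : k[X], aeval x p = (r i : F) := by
    intro i
    have h1 : (r i : F) ∈ Algebra.adjoin k {x} := (r i).2
    generalize (r i : F) = w at h1 ⊢
    rw [Algebra.adjoin_singleton_eq_range_aeval] at h1
    exact h1
  choose p hp using hrep
  have hsum : ∑ i : Fin (D + 1), aeval x (p i) * u ^ (i : ℕ) = 0 := by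
    rw [← hr]
    refine Finset.sum_congr rfl fun i _ => ?_
    rw [hp i, Algebra.smul_def]
    rfl
  set T : Finset (Fin (D + 1)) := Finset.univ.filter fun i => p i ≠ 0 with hT
  have hT0 : T.Nonempty := by
    refine ⟨i1, Finset.mem_filter.2 ⟨Finset.mem_univ _, ?_⟩⟩
    intro h0
    apply hi1
    have h1 := hp i1
    rw [h0, map_zero] at h1
    exact Subtype.ext h1.symm
  have hm : ∀ i, ∃ m : ℕ, p i ≠ 0 → O.valuation (aeval x (p i)) = O.valuation x ^ m := by
    intro i
    by_cases h : p i = 0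
    · exact ⟨0, fun h' => absurd h h'⟩
    · obtain ⟨m, hm⟩ := val_aeval O hk hx0 hx h
      exact ⟨m, fun _ => hm⟩
  choose m hm using hm
  obtain ⟨i0, hi0, hmin⟩ := Finset.exists_min_image T (fun i => m i * (D + 1) + (i : ℕ)) hT0
  have hi0p : p i0 ≠ 0 := (Finset.mem_filter.1 hi0).2
  have hlt : ∀ j ∈ Finset.univ.erase i0, O.valuation (aeval x (p j) * u ^ (j : ℕ)) <
      O.valuation (aeval x (p i0) * u ^ (i0 : ℕ)) := by
    intro j hj
    have hji : j ≠ i0 := Finset.ne_of_mem_erase hj
    have hpos : 0 < O.valuation (aeval x (p i0) * u ^ (i0 : ℕ)) := by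
      rw [map_mul, map_pow, hm i0 hi0p]
      exact zero_lt_iff.2 (mul_ne_zero (pow_ne_zero _ hvx0) (pow_ne_zero _ hvu0))
    by_cases hpj : p j = 0
    · rw [hpj, map_zero, zero_mul, map_zero]
      exact hpos
    have h1 := hmin j (Finset.mem_filter.2 ⟨Finset.mem_univ _, hpj⟩)
    rw [map_mul, map_mul, map_pow, map_pow, hm i0 hi0p, hm j hpj]
    have hjD : (j : ℕ) ≤ D := Nat.lt_succ_iff.1 j.2
    have hiD : (i0 : ℕ) ≤ D := Nat.lt_succ_iff.1 i0.2
    rcases lt_trichotomy (m j) (m i0) with h2 | h2 | h2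
    · exfalso
      have h3 : (m j + 1) * (D + 1) ≤ m i0 * (D + 1) := Nat.mul_le_mul_right _ h2
      have h4 : (m j + 1) * (D + 1) = m j * (D + 1) + (D + 1) := by ring
      omega
    · rw [h2] at h1 ⊢
      have h3 : (i0 : ℕ) < j := by
        have h4 : (i0 : ℕ) ≠ j := fun h => hji (Fin.ext h.symm)
        omega
      exact mul_lt_mul_of_pos_left (pow_lt_pow_right_of_lt_one₀ (zero_lt_iff.2 hvu0) hu h3)
        (zero_lt_iff.2 (pow_ne_zero _ hvx0))
    · calc O.valuation x ^ m j * O.valuation u ^ (j : ℕ) ≤ O.valuation x ^ m j * 1 :=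
            mul_le_mul_right (pow_le_one₀ zero_le hu.le) _
        _ = O.valuation x ^ m j := mul_one _
        _ ≤ O.valuation x ^ (m i0 + 1) := pow_le_pow_of_le_one zero_le hx.le h2
        _ = O.valuation x ^ m i0 * O.valuation x := pow_succ _ _
        _ < O.valuation x ^ m i0 * O.valuation u ^ D :=
            mul_lt_mul_of_pos_left hcon (zero_lt_iff.2 (pow_ne_zero _ hvx0))
        _ ≤ O.valuation x ^ m i0 * O.valuation u ^ (i0 : ℕ) :=
            mul_le_mul_right (pow_le_pow_of_le_one zero_le hu.le hiD) _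
  have hne : O.valuation (aeval x (p i0) * u ^ (i0 : ℕ)) ≠ 0 := by
    rw [map_mul, map_pow, hm i0 hi0p]
    exact mul_ne_zero (pow_ne_zero _ hvx0) (pow_ne_zero _ hvu0)
  have h1 := Valuation.map_sum_lt O.valuation hne hlt
  have h2 : aeval x (p i0) * u ^ (i0 : ℕ) =
      -∑ j ∈ Finset.univ.erase i0, aeval x (p j) * u ^ (j : ℕ) := by
    rw [← Finset.add_sum_erase _ _ (Finset.mem_univ i0)] at hsum
    exact eq_neg_of_add_eq_zero_left hsum
  rw [h2, Valuation.map_neg] at h1
  exact lt_irrefl _ h1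

end

theorem adjoin_inv (y : F) : k⟮y⁻¹⟯ = k⟮y⟯ := by
  apply le_antisymm
  · rw [adjoin_simple_le_iff]
    exact inv_mem (mem_adjoin_simple_self k y)
  · rw [adjoin_simple_le_iff]
    have := inv_mem (mem_adjoin_simple_self k y⁻¹)
    rwa [inv_inv] at this

/-- **The exponent of a power is bounded by the degrees.** -/
theorem pow_le {x y u : F} {m D : ℕ} (hu : Transcendental k u) (hy : y ≠ 0)
    (h : x = u ^ m * y) (hx1 : FiniteDimensional k⟮x⟯ F) (hx2 : finrank k⟮x⟯ F ≤ D)
    (hy1 : FiniteDimensional k⟮y⟯ F) (hy2 : finrank k⟮y⟯ F ≤ D) : m ≤ 2 * D := by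
  obtain ⟨O, hk, huO, hui⟩ := exists_place hu
  have hu0 : u ≠ 0 := by
    rintro rfl
    exact hu isAlgebraic_zero
  have hvu : O.valuation u < 1 := by
    have h1 : 1 < O.valuation u⁻¹ := by
      by_contra h2
      push Not at h2
      exact hui ((O.valuation_le_one_iff _).1 h2)
    rw [map_inv₀] at h1
    exact (one_lt_inv₀ (zero_lt_iff.2 ((Valuation.ne_zero_iff _).2 hu0))).1 h1
  have hvu0 : O.valuation u ≠ 0 := (Valuation.ne_zero_iff _).2 hu0
  have hx0 : x ≠ 0 := by
    rw [h]
    exact mul_ne_zero (pow_ne_zero _ hu0) hy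
  have key : ∀ w : F, w ≠ 0 → FiniteDimensional k⟮w⟯ F → finrank k⟮w⟯ F ≤ D →
      O.valuation u ^ D ≤ O.valuation w := by
    intro w hw0 hw1 hw2
    rcases lt_or_ge (O.valuation w) 1 with h1 | h1
    · exact place_bound O hk hw0 h1 hu0 hvu hw1 hw2
    · exact (pow_le_one₀ zero_le hvu.le).trans h1
  have h1 := key x hx0 hx1 hx2
  have h2 := key y⁻¹ (inv_ne_zero hy) (by rw [adjoin_inv]; exact hy1)
    (by rw [adjoin_inv]; exact hy2)
  have h3 : O.valuation u ^ m = O.valuation x * O.valuation y⁻¹ := by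
    rw [← map_mul, ← map_pow, h, mul_assoc, mul_inv_cancel₀ hy, mul_one]
  by_contra hm
  push Not at hm
  have h4 : O.valuation u ^ m < O.valuation u ^ (2 * D) :=
    pow_lt_pow_right_of_lt_one₀ (zero_lt_iff.2 hvu0) hvu hm
  have h5 : O.valuation u ^ (2 * D) ≤ O.valuation x * O.valuation y⁻¹ := by
    rw [two_mul, pow_add]
    exact mul_le_mul' h1 h2
  rw [h3] at h4
  exact absurd (h4.trans_le h5) (lt_irrefl _)

end Pool.Agent.Helper227_Tow
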