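import Pool.Agent.Helper227_Tow.Defs
import Pool.Agent.Helper227_Tow.Exp
import Pool.Agent.Helper227_Tow.Place
import Pool.Agent.W243.TD.Deg
import Pool.Agent.H340R2.LW

/-!
# Long towers of exponentials in a field of transcendence degree one
-/

set_option autoImplicit false

namespace Pool.Agent.Helper227_Tow

open IntermediateField Module

section

variable {F : IntermediateField ℚ ℂ}

/-- linearly independent elements with exponentials algebraic over the field -/
theorem count_indep (htr : ¬ Algebra.IsAlgebraic ℚ F) {D N : ℕ} (z : Fin N → F)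
    (hz : LinearIndependent ℚ z) (hf : ∀ i, FiniteDimensional ℚ⟮z i⟯ F)
    (hD : ∀ i, finrank ℚ⟮z i⟯ F ≤ D) (he : ∀ i, IsAlgebraic F (Complex.exp (z i))) :
    N ≤ 4 * D := by
  rcases Nat.eq_zero_or_pos N with h0 | h0
  · omega
  have h1 := Pool.Agent.W243.TD.deg_1 (L := 1) one_ne_zero z hz hf htr
    (fun i => by rw [one_mul]; exact he i) isAlgebraic_one ⟨0, h0⟩
  have h2 : ∑ i, finrank ℚ⟮z i⟯ F ≤ N * D := by
    calc ∑ i, finrank ℚ⟮z i⟯ F ≤ ∑ _i : Fin N, D := Finset.sum_le_sum fun i _ => hD i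
      _ = N * D := by rw [Finset.sum_const, Finset.card_univ, Fintype.card_fin, smul_eq_mul]
  have h3 := hD ⟨0, h0⟩
  by_contra hcon
  push Not at hcon
  obtain ⟨M, rfl⟩ : ∃ M, N = M + 1 := ⟨N - 1, by omega⟩
  have h4 : 4 * D ≤ M := by omega
  nlinarith

/-- a tower of exponentials -/
theorem exp_mem_span {S : Set F} (hS : ∀ z ∈ S, Complex.exp (z : ℂ) ∈ F) {a : F}
    (ha : a ∈ Submodule.span ℤ S) : Complex.exp (a : ℂ) ∈ F := by
  induction ha using Submodule.span_induction with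
  | mem x hx => exact hS x hx
  | zero =>
    show Complex.exp (((0 : F)) : ℂ) ∈ F
    rw [ZeroMemClass.coe_zero, Complex.exp_zero]
    exact one_mem F
  | add x y _ _ hx hy =>
    rw [AddMemClass.coe_add, Complex.exp_add]
    exact mul_mem hx hy
  | smul n x _ hx =>
    have h1 : ((n • x : F) : ℂ) = (n : ℂ) * (x : ℂ) := by
      rw [zsmul_eq_mul]
      push_cast
      rfl
    rw [h1, Complex.exp_int_mul]
    exact zpow_mem hx n

/-- **The number of classes modulo algebraic numbers.** -/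
theorem classes (htr : ¬ Algebra.IsAlgebraic ℚ F) {D : ℕ} (S : Finset F) (y : F → F)
    (hy : ∀ z ∈ S, ((y z : F) : ℂ) = Complex.exp (z : ℂ))
    (hf : ∀ z ∈ S, FiniteDimensional ℚ⟮z⟯ F) (hD : ∀ z ∈ S, finrank ℚ⟮z⟯ F ≤ D)
    (hf' : ∀ z ∈ S, FiniteDimensional ℚ⟮y z⟯ F) (hD' : ∀ z ∈ S, finrank ℚ⟮y z⟯ F ≤ D)
    (hp : ∀ z ∈ S, ∀ w ∈ S, z ≠ w → Transcendental ℚ (y z / y w)) :
    S.card ≤ (2 * D + 1) ^ (4 * D) := by
  classical
  set A : Submodule ℤ F := Submodule.span ℤ (S : Set F) with hA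
  have : Module.Finite ℤ A := Module.Finite.iff_fg.2 (Submodule.fg_span S.finite_toSet)
  have : Module.Free ℤ A := Module.free_of_finite_type_torsion_free'
  let b := Module.finBasis ℤ A
  set n := finrank ℤ A with hn
  -- the rank
  have hn4 : n ≤ 4 * D := by
    have hb : LinearIndependent ℚ (fun i => ((b i : A) : F)) := by
      rw [← LinearIndependent.iff_fractionRing ℤ ℚ]
      exact b.linearIndependent.map' A.subtype (LinearMap.ker_eq_bot.2 A.injective_subtype)
    obtain ⟨f, hf1, hf2, hf3⟩ := Submodule.exists_fun_fin_finrank_span_eq ℚ (S : Set F)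
    have h1 : finrank ℚ (Submodule.span ℚ (S : Set F)) ≤ 4 * D :=
      count_indep htr f hf3 (fun i => hf _ (hf1 i)) (fun i => hD _ (hf1 i)) (fun i => by
        have h2 := hy _ (hf1 i)
        rw [← h2]
        exact isAlgebraic_algebraMap (R := F) (A := ℂ) (y (f i)))
    have : FiniteDimensional ℚ (Submodule.span ℚ (S : Set F)) :=
      FiniteDimensional.span_of_finite ℚ S.finite_toSet
    have hmem : ∀ i, ((b i : A) : F) ∈ Submodule.span ℚ (S : Set F) := by
      intro i
      have h2 : ((b i : A) : F) ∈ Submodule.span ℤ (S : Set F) := (b i).2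
      exact Submodule.span_subset_span ℤ ℚ (S : Set F) h2
    have hb2 : LinearIndependent ℚ
        (fun i => (⟨((b i : A) : F), hmem i⟩ : Submodule.span ℚ (S : Set F))) := by
      rw [← LinearMap.linearIndependent_iff (Submodule.span ℚ (S : Set F)).subtype
        (LinearMap.ker_eq_bot.2 (Submodule.injective_subtype _))]
      exact hb
    have h3 := hb2.fintype_card_le_finrank
    rw [Fintype.card_fin] at h3
    exact h3.trans h1
  refine le_trans ?_ (Nat.pow_le_pow_right (by omega) hn4)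
  by_contra hcon
  push Not at hcon
  set m := 2 * D + 1 with hm
  have : NeZero m := ⟨by omega⟩
  let g : F → (Fin n → ZMod m) := fun z => fun i =>
    if h : z ∈ A then ((b.repr ⟨z, h⟩ i : ℤ) : ZMod m) else 0
  obtain ⟨z, hz, w, hw, hzw, hg⟩ := Finset.exists_ne_map_eq_of_card_lt_of_maps_to
    (s := S) (t := (Finset.univ : Finset (Fin n → ZMod m))) (f := g) (by
      rw [Finset.card_univ, Fintype.card_fun, ZMod.card, Fintype.card_fin]
      exact hcon) (fun _ _ => Finset.mem_univ _)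
  have hzA : z ∈ A := Submodule.subset_span hz
  have hwA : w ∈ A := Submodule.subset_span hw
  have hdiv : ∀ i, (m : ℤ) ∣ b.repr ⟨z, hzA⟩ i - b.repr ⟨w, hwA⟩ i := by
    intro i
    have h1 := congrFun hg i
    simp only [g, dif_pos hzA, dif_pos hwA] at h1
    exact (ZMod.intCast_eq_intCast_iff_dvd_sub _ _ m).1 h1.symm
  choose q hq using hdiv
  set a : A := ∑ i, q i • b i with ha
  have hza : (⟨z, hzA⟩ : A) = ⟨w, hwA⟩ + (m : ℤ) • a := by
    have e1 := b.sum_repr (⟨z, hzA⟩ : A)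
    have e2 := b.sum_repr (⟨w, hwA⟩ : A)
    have e3 : ∑ i, b.repr ⟨z, hzA⟩ i • b i = ∑ i, b.repr ⟨w, hwA⟩ i • b i + (m : ℤ) • a := by
      rw [ha, Finset.smul_sum, ← Finset.sum_add_distrib]
      refine Finset.sum_congr rfl fun i _ => ?_
      rw [smul_smul, ← add_smul, ← hq i]
      congr 1
      ring
    rw [e1, e2] at e3
    exact e3
  have hza' : z = w + (m : ℤ) • (a : F) := congrArg Subtype.val hza
  have hSF : ∀ z ∈ (S : Set F), Complex.exp (z : ℂ) ∈ F := by
    intro z hz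
    rw [← hy z hz]
    exact (y z).2
  have haF : Complex.exp ((a : F) : ℂ) ∈ F := exp_mem_span hSF a.2
  set u : F := ⟨Complex.exp ((a : F) : ℂ), haF⟩ with hu
  have hyw0 : y w ≠ 0 := by
    intro h0
    have h1 := hy w hw
    rw [h0, ZeroMemClass.coe_zero] at h1
    exact (Complex.exp_ne_zero _) h1.symm
  have hrel : y z = u ^ m * y w := by
    apply Subtype.ext
    rw [hy z hz, MulMemClass.coe_mul, SubmonoidClass.coe_pow, hy w hw, hu]
    show Complex.exp (z : ℂ) = Complex.exp ((a : F) : ℂ) ^ m * Complex.exp (w : ℂ)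
    rw [← Complex.exp_nat_mul, ← Complex.exp_add]
    congr 1
    have h1 : ((z : F) : ℂ) = ((w + (m : ℤ) • (a : F) : F) : ℂ) := congrArg _ hza'
    rw [h1]
    have h2 : (((m : ℤ) • (a : F) : F) : ℂ) = (m : ℂ) * ((a : F) : ℂ) := by
      rw [zsmul_eq_mul]
      push_cast
      rfl
    rw [AddMemClass.coe_add, h2, add_comm]
  have hutr : Transcendental ℚ u := by
    intro h1
    apply hp z hz w hw hzw
    rw [hrel, mul_div_assoc, div_self hyw0, mul_one]
    exact h1.pow m
  have := pow_le hutr hyw0 hrel (hf' z hz) (hD' z hz) (hf' w hw) (hD' w hw)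
  omega

end

/-! ### Towers -/

theorem lt_exp_self (x : ℝ) : x < Real.exp x := by
  linarith [Real.add_one_le_exp x]

theorem tower_mono (x : ℝ) : StrictMono (tower x) := by
  refine strictMono_nat_of_lt_succ fun k => ?_
  exact lt_exp_self (tower x k)

theorem tower_pos (x : ℝ) (k : ℕ) : 0 < tower x (k + 1) := Real.exp_pos _

theorem tower_cast (x : ℝ) (k : ℕ) : ((tower x (k + 1) : ℝ) : ℂ) = Complex.exp (tower x k : ℂ) := by
  show ((Real.exp (tower x k) : ℝ) : ℂ) = _
  rw [Complex.ofReal_exp]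

/-- the class modulo algebraic numbers -/
def cl (a : ℝ) : Set ℝ := {b | IsAlgebraic ℚ (b / a)}

theorem cl_eq {a b : ℝ} (ha : 0 < a) (h : cl a = cl b) : IsAlgebraic ℚ (a / b) := by
  have h1 : a ∈ cl a := by
    show IsAlgebraic ℚ (a / a)
    rw [div_self ha.ne']
    exact isAlgebraic_one
  rw [h] at h1
  exact h1

theorem cl_of {a b : ℝ} (ha : 0 < a) (hb : 0 < b) (h : IsAlgebraic ℚ (a / b)) : cl a = cl b := by
  ext c
  constructor
  · intro hc
    have h1 : IsAlgebraic ℚ (c / a) := hc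
    show IsAlgebraic ℚ (c / b)
    have h2 : c / b = c / a * (a / b) := by
      field_simp
    rw [h2]
    exact h1.mul h
  · intro hc
    have h1 : IsAlgebraic ℚ (c / b) := hc
    show IsAlgebraic ℚ (c / a)
    have h2 : c / a = c / b * (a / b)⁻¹ := by
      field_simp
    rw [h2]
    exact h1.mul h.inv

section

variable {F : IntermediateField ℚ ℂ}

/-- the classes of the numbers `t_{k+1}` with `t_k, t_{k+1}` of degree at most `D` -/
theorem card_classes (htr : ¬ Algebra.IsAlgebraic ℚ F) (x : ℝ) {D : ℕ} (I : Finset ℕ)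
    (hI : ∀ k ∈ I, DegLE F D (tower x k) ∧ DegLE F D (tower x (k + 1))) :
    (Set.ncard ((fun k => cl (tower x (k + 1))) '' (I : Set ℕ))) ≤ (2 * D + 1) ^ (4 * D) := by
  classical
  have hex : ∀ k, ∃ z : F, k ∈ I → (z : ℂ) = tower x k ∧ FiniteDimensional ℚ⟮z⟯ F ∧
      finrank ℚ⟮z⟯ F ≤ D := by
    intro k
    by_cases hk : k ∈ I
    · obtain ⟨z, hz⟩ := (hI k hk).1
      exact ⟨z, fun _ => hz⟩
    · exact ⟨0, fun h => absurd h hk⟩
  have hex' : ∀ k, ∃ z : F, k ∈ I → (z : ℂ) = tower x (k + 1) ∧ FiniteDimensional ℚ⟮z⟯ F ∧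
      finrank ℚ⟮z⟯ F ≤ D := by
    intro k
    by_cases hk : k ∈ I
    · obtain ⟨z, hz⟩ := (hI k hk).2
      exact ⟨z, fun _ => hz⟩
    · exact ⟨0, fun h => absurd h hk⟩
  choose z hz using hex
  choose z' hz' using hex'
  -- representatives of the classes
  set cls : ℕ → Set ℝ := fun k => cl (tower x (k + 1)) with hcls
  have hrep : ∀ c : Set ℝ, ∃ k, c ∈ I.image cls → k ∈ I ∧ cls k = c := by
    intro c
    by_cases hc : c ∈ I.image cls
    · obtain ⟨k, hk, hkc⟩ := Finset.mem_image.1 hc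
      exact ⟨k, fun _ => ⟨hk, hkc⟩⟩
    · exact ⟨0, fun h => absurd h hc⟩
  choose r hr using hrep
  have hcard : Set.ncard (cls '' (I : Set ℕ)) = (I.image cls).card := by
    rw [← Finset.coe_image, Set.ncard_coe_finset]
  rw [hcard]
  have hzinj : ∀ k ∈ I, ∀ l ∈ I, z k = z l → k = l := by
    intro k hk l hl h
    have h1 := (hz k hk).1
    have h2 := (hz l hl).1
    rw [h, h2] at h1
    have h3 : tower x l = tower x k := by exact_mod_cast h1
    exact ((tower_mono x).injective h3).symm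
  set S : Finset F := (I.image cls).image (fun c => z (r c)) with hS
  have hScard : S.card = (I.image cls).card := by
    rw [hS]
    refine Finset.card_image_of_injOn ?_
    intro c hc c' hc' h
    have h1 := hr c hc
    have h2 := hr c' hc'
    have h3 := hzinj _ h1.1 _ h2.1 h
    rw [← h1.2, ← h2.2, h3]
  rw [← hScard]
  -- the inverse map
  have hinv : ∀ s : F, ∃ k, s ∈ S → k ∈ I ∧ z k = s ∧ r (cls k) = k := by
    intro s
    by_cases hs : s ∈ S
    · obtain ⟨c, hc, hcs⟩ := Finset.mem_image.1 hs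
      refine ⟨r c, fun _ => ⟨(hr c hc).1, hcs, ?_⟩⟩
      rw [(hr c hc).2]
    · exact ⟨0, fun h => absurd h hs⟩
  choose κ hκ using hinv
  refine classes htr S (fun s => z' (κ s)) ?_ ?_ ?_ ?_ ?_ ?_
  · intro s hs
    obtain ⟨h1, h2, -⟩ := hκ s hs
    rw [(hz' _ h1).1, tower_cast, ← (hz _ h1).1, h2]
  · intro s hs
    obtain ⟨h1, h2, -⟩ := hκ s hs
    rw [← h2]
    exact (hz _ h1).2.1
  · intro s hs
    obtain ⟨h1, h2, -⟩ := hκ s hs
    rw [← h2]
    exact (hz _ h1).2.2
  · intro s hs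
    exact (hz' _ (hκ s hs).1).2.1
  · intro s hs
    exact (hz' _ (hκ s hs).1).2.2
  · intro s hs t ht hst halg
    apply hst
    obtain ⟨h1, h2, h3⟩ := hκ s hs
    obtain ⟨g1, g2, g3⟩ := hκ t ht
    have h4 : IsAlgebraic ℚ (tower x (κ s + 1) / tower x (κ t + 1)) := by
      apply algR
      have h5 : (((z' (κ s) / z' (κ t) : F)) : ℂ) =
          ((tower x (κ s + 1) / tower x (κ t + 1) : ℝ) : ℂ) := by
        push_cast
        rw [(hz' _ h1).1, (hz' _ g1).1]
      rw [← h5]
      exact halg.algebraMap (A := ℂ)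
    have h5 : cls (κ s) = cls (κ t) := cl_of (tower_pos x _) (tower_pos x _) h4
    rw [← h2, ← g2, ← h3, ← g3, h5]

theorem mem_of_degLE {D : ℕ} {t : ℝ} (h : DegLE F D t) : (t : ℂ) ∈ F := by
  obtain ⟨z, hz, -⟩ := h
  rw [← hz]
  exact z.2

/-- a field which contains two consecutive members of a tower, the first one not `0`, is not
algebraic -/
theorem not_alg {t : ℝ} (ht : t ≠ 0) (h1 : (t : ℂ) ∈ F) (h2 : ((Real.exp t : ℝ) : ℂ) ∈ F) :
    ¬ Algebra.IsAlgebraic ℚ F := by
  intro h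
  have h3 : IsAlgebraic ℚ (t : ℂ) :=
    (h.isAlgebraic (⟨(t : ℂ), h1⟩ : F)).algebraMap (A := ℂ)
  have h4 : IsAlgebraic ℚ ((Real.exp t : ℝ) : ℂ) :=
    (h.isAlgebraic (⟨((Real.exp t : ℝ) : ℂ), h2⟩ : F)).algebraMap (A := ℂ)
  rw [Complex.ofReal_exp] at h4
  exact Pool.Agent.H340R2.LW.transcendental_cexp _ h3 (by exact_mod_cast ht) h4

theorem tr_of_degLE (htr : ¬ Algebra.IsAlgebraic ℚ F) {D : ℕ} {t : ℝ} (h : DegLE F D t) :
    Transcendental ℚ t := by
  obtain ⟨z, hz, hf, -⟩ := h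
  intro halg
  apply htr
  have h0 : IsAlgebraic ℚ z := by
    have h1 : IsAlgebraic ℚ (z : ℂ) := by
      rw [hz]
      exact algC halg
    exact (isAlgebraic_algebraMap_iff (algebraMap F ℂ).injective).1 h1
  have h1 : FiniteDimensional ℚ ℚ⟮z⟯ := adjoin.finiteDimensional h0.isIntegral
  have h3 : FiniteDimensional ℚ F := FiniteDimensional.trans ℚ ℚ⟮z⟯ F
  exact Algebra.IsAlgebraic.of_finite ℚ F

theorem card_le (x : ℝ) {D : ℕ} (J : Finset ℕ)
    (hJ : ∀ k ∈ J, ∀ i ∈ Finset.Icc k (k + 3), DegLE F D (tower x i)) :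
    J.card ≤ 3 * (2 * D + 1) ^ (12 * D) := by
  classical
  by_contra hcon
  push Not at hcon
  have hJ0 : J.Nonempty := by
    rw [← Finset.card_pos]
    omega
  have hJi : ∀ k ∈ J, ∀ i, i ≤ 3 → DegLE F D (tower x (k + i)) := fun k hk i hi =>
    hJ k hk (k + i) (Finset.mem_Icc.2 ⟨by omega, by omega⟩)
  have htr : ¬ Algebra.IsAlgebraic ℚ F := by
    obtain ⟨k, hk⟩ := hJ0
    exact not_alg (t := tower x (k + 1)) (tower_pos x k).ne' (mem_of_degLE (hJi k hk 1 (by omega)))
      (mem_of_degLE (hJi k hk 2 (by omega)))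
  set M := (2 * D + 1) ^ (4 * D) with hM
  set cls : ℕ → Set ℝ := fun k => cl (tower x (k + 1)) with hcls
  have hC : ∀ i, i ≤ 2 → (J.image (fun k => cls (k + i))).card ≤ M := by
    intro i hi
    have h1 := card_classes htr x (J.image (fun k => k + i)) (by
      intro l hl
      obtain ⟨k, hk, rfl⟩ := Finset.mem_image.1 hl
      exact ⟨hJi k hk i (by omega), hJi k hk (i + 1) (by omega)⟩)
    rw [← Finset.coe_image, Set.ncard_coe_finset, Finset.image_image] at h1
    exact h1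
  set Φ : ℕ → Set ℝ × Set ℝ × Set ℝ := fun k => (cls (k + 0), cls (k + 1), cls (k + 2)) with hΦ
  set T : Finset (Set ℝ × Set ℝ × Set ℝ) := (J.image (fun k => cls (k + 0))) ×ˢ
    ((J.image (fun k => cls (k + 1))) ×ˢ (J.image (fun k => cls (k + 2)))) with hT
  have hTcard : T.card ≤ (2 * D + 1) ^ (12 * D) := by
    rw [hT, Finset.card_product, Finset.card_product]
    calc _ ≤ M * (M * M) := Nat.mul_le_mul (hC 0 (by omega))
          (Nat.mul_le_mul (hC 1 (by omega)) (hC 2 (by omega)))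
      _ = (2 * D + 1) ^ (12 * D) := by
          rw [hM, ← pow_add, ← pow_add]
          congr 1
          ring
  have hmaps : ∀ k ∈ J, Φ k ∈ T := by
    intro k hk
    rw [hT, Finset.mem_product, Finset.mem_product]
    exact ⟨Finset.mem_image_of_mem _ hk, Finset.mem_image_of_mem _ hk,
      Finset.mem_image_of_mem _ hk⟩
  obtain ⟨c, -, hc⟩ := Finset.exists_lt_card_fiber_of_mul_lt_card_of_maps_to hmaps (n := 3) (by
    refine lt_of_le_of_lt ?_ hcon
    rw [mul_comm]
    exact Nat.mul_le_mul_left 3 hTcard)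
  set T' := J.filter (fun k => Φ k = c) with hT'
  let f := Finset.orderEmbOfCardLe T' (show 4 ≤ T'.card from hc)
  have hfm : ∀ a, f a ∈ T' := fun a => Finset.orderEmbOfCardLe_mem T' hc a
  have hfJ : ∀ a, f a ∈ J := fun a => (Finset.mem_filter.1 (hfm a)).1
  have hfc : ∀ a, Φ (f a) = Φ (f 0) := fun a =>
    (Finset.mem_filter.1 (hfm a)).2.trans (Finset.mem_filter.1 (hfm 0)).2.symm
  refine fiber (fun a => tower x (f a + 1)) ?_ (tower_pos x _).ne' ?_ ?_ ?_ ?_
  · intro a b hab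
    exact tower_mono x (Nat.add_lt_add_right (f.strictMono hab) 1)
  · intro a
    exact cl_eq (tower_pos x _) (congrArg Prod.fst (hfc a))
  · intro a
    show IsAlgebraic ℚ (tower x (f a + 1 + 1) / tower x (f 0 + 1 + 1))
    exact cl_eq (tower_pos x _) (congrArg (fun p => p.2.1) (hfc a))
  · intro a
    show IsAlgebraic ℚ (tower x (f a + 2 + 1) / tower x (f 0 + 2 + 1))
    exact cl_eq (tower_pos x _) (congrArg (fun p => p.2.2) (hfc a))
  · exact tr_of_degLE htr (hJi (f 0) (hfJ 0) 3 le_rfl)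

end

/-- **Long towers.** -/
theorem main (x : ℝ) (F : IntermediateField ℚ ℂ) (D : ℕ) :
    {k : ℕ | ∀ i ∈ Finset.Icc k (k + 3), DegLE F D (tower x i)}.encard ≤
      ((3 * (2 * D + 1) ^ (12 * D) : ℕ) : ℕ∞) := by
  rw [Set.encard_le_coe_iff_finite_ncard_le]
  have hfin : {k : ℕ | ∀ i ∈ Finset.Icc k (k + 3), DegLE F D (tower x i)}.Finite := by
    by_contra hinf
    obtain ⟨J, hJ1, hJ2⟩ := Set.Infinite.exists_subset_card_eq hinf
      (3 * (2 * D + 1) ^ (12 * D) + 1)
    have := card_le x J (fun k hk => hJ1 hk)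
    omega
  refine ⟨hfin, ?_⟩
  rw [Set.ncard_eq_toFinset_card _ hfin]
  exact card_le x _ (fun k hk => (Set.Finite.mem_toFinset hfin).1 hk)

end Pool.Agent.Helper227_Tow
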